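import Mathlib
import Pool.Agent.RepSharp.Final

set_option autoImplicit false

/-!
# Growth of sets with an eventually increasing representation function

If one of the three `k`-fold representation functions of an infinite set `A` of natural numbers is
increasing from some point on, then `A(n)` is at least a constant times `n ^ α` infinitely often,
for every `α < 1` with `α ≤ 2 / k`. For `k ≥ 3` the exponent `α = 2 / k` itself is allowed.
-/

namespace Pool.Agent.Results.MP_885588_nt.SharpGrowth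

open Filter Pool.Agent.RepGrowth Pool.Agent.RepSharp

/-- The number of ordered representations `a_1 + ⋯ + a_k = n` with terms in `A`. -/
noncomputable def r₁ (A : Set ℕ) (k n : ℕ) : ℕ :=
  Set.ncard {a : Fin k → ℕ | (∀ j, a j ∈ A) ∧ ∑ j, a j = n}

/-- The number of representations `a_1 + ⋯ + a_k = n` with terms in `A` and
`a_1 ≤ a_2 ≤ ⋯ ≤ a_k`. -/
noncomputable def r₂ (A : Set ℕ) (k n : ℕ) : ℕ :=
  Set.ncard {a : Fin k → ℕ | (∀ j, a j ∈ A) ∧ ∑ j, a j = n ∧ Monotone a}

/-- The number of representations `a_1 + ⋯ + a_k = n` with terms in `A` and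
`a_1 < a_2 < ⋯ < a_k`. -/
noncomputable def r₃ (A : Set ℕ) (k n : ℕ) : ℕ :=
  Set.ncard {a : Fin k → ℕ | (∀ j, a j ∈ A) ∧ ∑ j, a j = n ∧ StrictMono a}

/-- `f` is increasing (not necessarily strictly) from some point on. -/
def EventuallyIncreasing (f : ℕ → ℕ) : Prop := ∃ n₀, ∀ n, n₀ ≤ n → f n ≤ f (n + 1)

/-- The counting function `A(n)`, the number of `a ∈ A` with `0 < a ≤ n`. -/
noncomputable def count (A : Set ℕ) (n : ℕ) : ℕ := Set.ncard {a : ℕ | a ∈ A ∧ 0 < a ∧ a ≤ n}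

lemma r₁_eq (A : Set ℕ) (k n : ℕ) : r₁ A k n = rep A k 1 n := by
  unfold r₁ rep
  congr 1
  ext a
  simp

lemma r₂_eq (A : Set ℕ) (k n : ℕ) : r₂ A k n = rep A k 2 n := by
  unfold r₂ rep
  congr 1
  ext a
  simp

lemma r₃_eq (A : Set ℕ) (k n : ℕ) : r₃ A k n = rep A k 3 n := by
  unfold r₃ rep
  congr 1
  ext a
  simp

lemma count_eq (A : Set ℕ) (n : ℕ) : count A n = (A ∩ Set.Icc 1 n).ncard := by
  unfold count
  congr 1

/-- Let `k ≥ 2`, let `A` be an infinite set of natural numbers such that at least one of its three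
`k`-fold representation functions is increasing from some point on, and let `α < 1` be a real
number with `α ≤ 2 / k`. Then there is `c > 0` such that `A(n) ≥ c n ^ α` for infinitely
many `n`. -/
theorem result (k : ℕ) (hk : 2 ≤ k) (A : Set ℕ) (hA : A.Infinite)
    (h : EventuallyIncreasing (r₁ A k) ∨ EventuallyIncreasing (r₂ A k) ∨
      EventuallyIncreasing (r₃ A k))
    (α : ℝ) (hα1 : α < 1) (hαk : α ≤ 2 / k) :
    ∃ c : ℝ, 0 < c ∧ ∃ᶠ n : ℕ in atTop, c * (n : ℝ) ^ α ≤ count A n := by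
  obtain ⟨i, hi, n₀, hmono⟩ : ∃ i ∈ ({1, 2, 3} : Finset ℕ), ∃ n₀, ∀ n, n₀ ≤ n →
      rep A k i n ≤ rep A k i (n + 1) := by
    rcases h with ⟨n₀, h⟩ | ⟨n₀, h⟩ | ⟨n₀, h⟩
    · exact ⟨1, by simp, n₀, fun n hn => by simpa only [r₁_eq] using h n hn⟩
    · exact ⟨2, by simp, n₀, fun n hn => by simpa only [r₂_eq] using h n hn⟩
    · exact ⟨3, by simp, n₀, fun n hn => by simpa only [r₃_eq] using h n hn⟩
  have hk0 : (0 : ℝ) < k := by exact_mod_cast (by omega : 0 < k)
  -- it is enough to treat a positive exponent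
  obtain ⟨α', hα'0, hα'1, hα'k, hαα'⟩ : ∃ α' : ℝ, 0 < α' ∧ α' < 1 ∧ α' ≤ 2 / k ∧ α ≤ α' := by
    rcases lt_or_ge 0 α with h0 | h0
    · exact ⟨α, h0, hα1, hαk, le_rfl⟩
    · refine ⟨min (1 / 2) (2 / k), by positivity, ?_, min_le_right _ _, ?_⟩
      · exact (min_le_left _ _).trans_lt (by norm_num)
      · exact h0.trans (by positivity)
  obtain ⟨c, hc0, hc⟩ := main_sharp k hk i hi A hA n₀ hmono α' hα'0 hα'1 hα'k
  refine ⟨c, hc0, ?_⟩
  rw [frequently_atTop]
  intro N
  have h1 := hc (max N 1)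
  push Not at h1
  obtain ⟨n, hn, hlt⟩ := h1
  have hn1 : 1 ≤ n := (le_max_right _ _).trans hn
  refine ⟨n, (le_max_left _ _).trans hn, ?_⟩
  rw [count_eq]
  have hn1' : (1 : ℝ) ≤ n := by exact_mod_cast hn1
  calc c * (n : ℝ) ^ α ≤ c * (n : ℝ) ^ α' :=
        mul_le_mul_of_nonneg_left (Real.rpow_le_rpow_of_exponent_le hn1' hαα') hc0.le
    _ ≤ _ := hlt.le

end Pool.Agent.Results.MP_885588_nt.SharpGrowth
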